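import Pool.Agent.H948.HS.Stm

/-!
# `S_POS`: the conditioning event has positive probability
-/

set_option autoImplicit false

namespace Pool.Agent.H396.HS

open MeasureTheory ProbabilityTheory Set Filter Metric
open scoped ENNReal NNReal Topology RealInnerProductSpace
open Pool.Agent.H948.HS

theorem s_pos_inner {m : ℕ} (x : E m) : ⟪e0 m, x⟫ = x 0 := by
  simp [e0, EuclideanSpace.inner_single_left]

/-- one step -/
theorem s_pos_step {m : ℕ} {ε c : ℝ} (hε : 0 < ε) (u : Om m)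
    (hu : 1 - (Real.exp (-(c * ε)) - Real.exp (-ε)) / Real.sinh ε < ⟪e0 m, ((u 0 : Sp m) : E m)⟫) :
    c < Hn ε u 1 := by
  rw [s_pos_inner] at hu
  have hsh : 0 < Real.sinh ε := Real.sinh_pos_iff.2 hε
  have h1 : ((u 0 : Sp m) : E m) 0 ≤ 1 :=
    (le_abs_self _).trans ((abs_coord_le _ _).trans (norm_sp (u 0)).le)
  have hce : Real.cosh ε - Real.sinh ε = Real.exp (-ε) := Real.cosh_sub_sinh ε
  have hpos : 0 < Real.cosh ε - Real.sinh ε * ((u 0 : Sp m) : E m) 0 := by
    have h2 : Real.sinh ε * ((u 0 : Sp m) : E m) 0 ≤ Real.sinh ε * 1 :=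
      mul_le_mul_of_nonneg_left h1 hsh.le
    have h3 := Real.exp_pos (-ε)
    linarith
  have hlt : Real.cosh ε - Real.sinh ε * ((u 0 : Sp m) : E m) 0 < Real.exp (-(c * ε)) := by
    have h2 : Real.sinh ε * (1 - (Real.exp (-(c * ε)) - Real.exp (-ε)) / Real.sinh ε) <
        Real.sinh ε * ((u 0 : Sp m) : E m) 0 := mul_lt_mul_of_pos_left hu hsh
    have h3 : Real.sinh ε * (1 - (Real.exp (-(c * ε)) - Real.exp (-ε)) / Real.sinh ε) =
        Real.sinh ε - (Real.exp (-(c * ε)) - Real.exp (-ε)) := by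
      field_simp
    rw [h3] at h2
    linarith
  have hX : (X ε u 1).2 = 1 * (1 / (Real.cosh ε - Real.sinh ε * ((u 0 : Sp m) : E m) 0)) := rfl
  unfold Hn
  rw [hX, one_mul, one_div, Real.log_inv, lt_div_iff₀ hε]
  have h4 : Real.log (Real.cosh ε - Real.sinh ε * ((u 0 : Sp m) : E m) 0) < -(c * ε) := by
    rw [← Real.log_exp (-(c * ε))]
    exact Real.log_lt_log hpos hlt
  linarith

theorem s_pos (hB : S_BLOCK) (hg : S_HG) (_hm : S_HM) (hS : S_SIG) : S_POS := by
  intro m ε c n hε hc hc1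
  obtain ⟨_, hdist_eq, hDH, hHadd, _, _⟩ := hg m ε hε
  have hsh : 0 < Real.sinh ε := Real.sinh_pos_iff.2 hε
  obtain ⟨ρ, hρ⟩ : ∃ ρ : ℝ, ρ = (Real.exp (-(c * ε)) - Real.exp (-ε)) / Real.sinh ε := ⟨_, rfl⟩
  have hρ0 : 0 < ρ := by
    rw [hρ]
    refine div_pos ?_ hsh
    have : Real.exp (-ε) < Real.exp (-(c * ε)) := Real.exp_lt_exp.2 (by nlinarith)
    linarith
  have hcap : MeasurableSet {x : Sp m | 1 - ρ < ⟪e0 m, (x : E m)⟫} :=
    measurableSet_lt measurable_const
      ((continuous_const.inner continuous_id).measurable.comp measurable_subtype_coe)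
  have hA : MeasurableSet {u : Om m | 1 - ρ < ⟪e0 m, ((u 0 : Sp m) : E m)⟫} :=
    (measurable_pi_apply (X := fun _ : ℕ => Sp m) 0) hcap
  have hloc : Loc 1 {u : Om m | 1 - ρ < ⟪e0 m, ((u 0 : Sp m) : E m)⟫} := by
    intro u v h
    have h0 := h 0 (by norm_num)
    change 1 - ρ < ⟪e0 m, ((u 0 : Sp m) : E m)⟫ ↔ 1 - ρ < ⟪e0 m, ((v 0 : Sp m) : E m)⟫
    rw [h0]
  have hPA : (Pm m).real {u : Om m | 1 - ρ < ⟪e0 m, ((u 0 : Sp m) : E m)⟫} =
      (sig m).real {x : Sp m | 1 - ρ < ⟪e0 m, (x : E m)⟫} := by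
    have h1 := (measurePreserving_eval_infinitePi (fun _ : ℕ => sig m) 0).measure_preimage
      hcap.nullMeasurableSet
    rw [measureReal_def, measureReal_def, ← h1]
    rfl
  have hblock := hB m n (fun i => i) (fun _ => 1)
    (fun _ => {u : Om m | 1 - ρ < ⟪e0 m, ((u 0 : Sp m) : E m)⟫})
    (fun _ _ => ⟨hA, hloc⟩) (fun i _ => le_refl (i + 1))
  have hpos : 0 < (Pm m).real {u : Om m | ∀ i < n, shift i u ∈
      {u : Om m | 1 - ρ < ⟪e0 m, ((u 0 : Sp m) : E m)⟫}} := by
    rw [hblock, hPA]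
    exact Finset.prod_pos fun _ _ => hS.1 m (e0 m) ρ norm_e0 hρ0
  refine hpos.trans_le (measureReal_mono ?_ (measure_ne_top _ _))
  intro u hu i j hij hj
  have hu' : ∀ i < n, c < Hn ε (shift i u) 1 := by
    intro i hi
    refine s_pos_step hε (shift i u) ?_
    rw [← hρ]
    exact hu i hi
  have hind : ∀ k, 0 < k → ∀ i, i + k ≤ n → c < Hn ε (shift i u) k := by
    intro k
    induction k with
    | zero => intro h; exact absurd h (lt_irrefl _)
    | succ k ih =>
      intro _ i hik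
      rcases Nat.eq_zero_or_pos k with hk | hk
      · rw [hk]
        exact hu' i (by omega)
      · rw [hHadd, shift_shift]
        have h1 := ih hk i (by omega)
        have h2 := hu' (i + k) (by omega)
        linarith
  rw [hdist_eq u i j hij.le, mul_comm c ε]
  refine mul_lt_mul_of_pos_left ?_ hε
  have h1 := hind (j - i) (by omega) i (by omega)
  have h2 := (hDH (shift i u) (j - i)).2
  exact h1.trans_le ((le_abs_self _).trans h2)

end Pool.Agent.H396.HS
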